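import Pool.Agent.H47.MED.Stmts
import Pool.Agent.H10.FEX.Stmts

/-!
# MED, module CNR: the count by roots
-/

set_option autoImplicit false

namespace Pool.MED.CNR

open Finset Pool.Agent.H98.ABCR Pool.SHA

theorem coord_pos {v : ℕ × ℕ} (hv : IsTri v) (s : Fin 3) : 0 < coord v s := by
  obtain ⟨ha, hb, -⟩ := hv
  fin_cases s
  · exact ha
  · exact hb
  · exact Nat.add_pos_left ha _

theorem coord_le (v : ℕ × ℕ) (s : Fin 3) : coord v s ≤ v.1 + v.2 := by
  fin_cases s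
  · exact Nat.le_add_right _ _
  · exact Nat.le_add_left _ _
  · exact le_rfl

theorem coord_dvd (v : ℕ × ℕ) (s : Fin 3) : coord v s ∣ nn v := by
  unfold nn
  fin_cases s
  · exact (Dvd.intro _ rfl : v.1 ∣ v.1 * v.2).mul_right _
  · exact (Dvd.intro_left _ rfl : v.2 ∣ v.1 * v.2).mul_right _
  · exact Dvd.intro_left _ rfl

theorem coprime {v : ℕ × ℕ} (hv : IsTri v) {s t : Fin 3} (h : s ≠ t) :
    (coord v s).Coprime (coord v t) := by
  obtain ⟨-, -, hc⟩ := hv
  have h01 : v.1.Coprime v.2 := hc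
  have h02 : v.1.Coprime (v.1 + v.2) := by simpa using hc
  have h12 : v.2.Coprime (v.1 + v.2) := by simpa using hc.symm
  fin_cases s <;> fin_cases t
  · exact absurd rfl h
  · exact h01
  · exact h02
  · exact h01.symm
  · exact absurd rfl h
  · exact h12
  · exact h02.symm
  · exact h12.symm
  · exact absurd rfl h

/-- two coordinates determine the triple; the third one is their sum or difference -/
theorem sgn (i j k : Fin 3) (hij : i ≠ j) (hik : i ≠ k) (hjk : j ≠ k) :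
    ∃ σ : ℤ, (∀ v : ℕ × ℕ, (coord v j : ℤ) ∣ (coord v i : ℤ) - σ * coord v k) ∧
    ∀ v v' : ℕ × ℕ, coord v i = coord v' i → coord v k = coord v' k → v = v' := by
  have e : ∀ v : ℕ × ℕ, coord v 0 = v.1 ∧ coord v 1 = v.2 ∧ coord v 2 = v.1 + v.2 :=
    fun v => ⟨rfl, rfl, rfl⟩
  have key : ∀ (i j k : Fin 3) (σ τ : ℤ),
      (∀ v : ℕ × ℕ, (coord v i : ℤ) - σ * coord v k = τ * coord v j) →
      (∀ v v' : ℕ × ℕ, coord v i = coord v' i → coord v k = coord v' k → v = v') →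
      ∃ σ : ℤ, (∀ v : ℕ × ℕ, (coord v j : ℤ) ∣ (coord v i : ℤ) - σ * coord v k) ∧
      ∀ v v' : ℕ × ℕ, coord v i = coord v' i → coord v k = coord v' k → v = v' := by
    intro i j k σ τ h1 h2
    exact ⟨σ, fun v => ⟨τ, by rw [h1 v, mul_comm]⟩, h2⟩
  have inj : ∀ v v' : ℕ × ℕ, v.1 = v'.1 → v.2 = v'.2 → v = v' := fun v v' h1 h2 => Prod.ext h1 h2
  fin_cases i <;> fin_cases j <;> fin_cases k <;> first | exact absurd rfl hij | exact absurd rfl hik | exact absurd rfl hjk | skip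
  · refine key 0 1 2 1 (-1) (fun v => ?_) (fun v v' h1 h2 => ?_)
    · rw [(e v).1, (e v).2.1, (e v).2.2]; push_cast; ring
    · rw [(e v).1, (e v').1] at h1; rw [(e v).2.2, (e v').2.2] at h2
      exact inj v v' h1 (by omega)
  · refine key 0 2 1 (-1) 1 (fun v => ?_) (fun v v' h1 h2 => ?_)
    · rw [(e v).1, (e v).2.1, (e v).2.2]; push_cast; ring
    · rw [(e v).1, (e v').1] at h1; rw [(e v).2.1, (e v').2.1] at h2
      exact inj v v' h1 h2
  · refine key 1 0 2 1 (-1) (fun v => ?_) (fun v v' h1 h2 => ?_)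
    · rw [(e v).1, (e v).2.1, (e v).2.2]; push_cast; ring
    · rw [(e v).2.1, (e v').2.1] at h1; rw [(e v).2.2, (e v').2.2] at h2
      exact inj v v' (by omega) h1
  · refine key 1 2 0 (-1) 1 (fun v => ?_) (fun v v' h1 h2 => ?_)
    · rw [(e v).1, (e v).2.1, (e v).2.2]; push_cast; ring
    · rw [(e v).2.1, (e v').2.1] at h1; rw [(e v).1, (e v').1] at h2
      exact inj v v' h2 h1
  · refine key 2 0 1 1 1 (fun v => ?_) (fun v v' h1 h2 => ?_)
    · rw [(e v).1, (e v).2.1, (e v).2.2]; push_cast; ring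
    · rw [(e v).2.2, (e v').2.2] at h1; rw [(e v).2.1, (e v').2.1] at h2
      exact inj v v' (by omega) h2
  · refine key 2 1 0 1 1 (fun v => ?_) (fun v v' h1 h2 => ?_)
    · rw [(e v).1, (e v).2.1, (e v).2.2]; push_cast; ring
    · rw [(e v).2.2, (e v').2.2] at h1; rw [(e v).1, (e v').1] at h2
      exact inj v v' h2 (by omega)

/-- the data of one triple -/
structure Dat (E : ℕ) (Z : ℝ) (v : ℕ × ℕ) (i j k : Fin 3) (e B A M x : ℕ) : Prop where
  hij : i ≠ j
  hik : i ≠ k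
  hjk : j ≠ k
  ea : 1 ≤ e
  eb : e ≤ E
  ck : coord v k = B
  ci : coord v i = A * x ^ e
  mj : M ∣ coord v j
  l1 : (rad B : ℝ) * rad A * rad M ≤ Z
  l2 : (rad B : ℝ) * rad A * rad M * x ≤ Z * M

theorem rad_pos (n : ℕ) : (0:ℝ) < rad n := by
  unfold rad
  exact_mod_cast Finset.prod_pos (fun p hp => (Nat.prime_of_mem_primeFactors hp).pos)

theorem om_rad (n : ℕ) : om (rad n) = n.primeFactors.card := by
  unfold om
  have h : (rad n).primeFactors = n.primeFactors := by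
    unfold rad
    exact Nat.primeFactors_prod fun p hp => Nat.prime_of_mem_primeFactors hp
  rw [h]

theorem rad_le {a b : ℕ} (h : a ∣ b) (hb : b ≠ 0) : rad a ≤ rad b := by
  unfold rad
  exact Finset.prod_le_prod_of_subset_of_one_le' (Nat.primeFactors_mono h hb)
    (fun p hp _ => (Nat.prime_of_mem_primeFactors hp).one_le)

/-- one class -/
theorem fib (hRTN : S_RTN) {E : ℕ} {Z X W : ℝ} (i j k : Fin 3) (e B A M : ℕ)
    (F : Finset (ℕ × ℕ)) (x : ℕ × ℕ → ℕ) (hZ : 0 ≤ Z) (hW0 : 0 ≤ W)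
    (hW : ∀ R : ℕ, 1 ≤ R → (R : ℝ) ≤ X → (2 * (E : ℝ) + 1) ^ (om R + 1) ≤ W)
    (hF : ∀ v ∈ F, IsTri v ∧ (RR v : ℝ) ≤ X ∧ Dat E Z v i j k e B A M (x v)) :
    (F.card : ℝ) ≤ 2 * W * Z * (1 / rad B * (1 / rad A) * (1 / rad M)) := by
  classical
  have rA := rad_pos A
  have rB := rad_pos B
  have rM := rad_pos M
  rcases F.eq_empty_or_nonempty with h0 | ⟨v0, hv0⟩
  · rw [h0, Finset.card_empty, Nat.cast_zero]
    positivity
  obtain ⟨T0, X0, D0⟩ := hF v0 hv0
  obtain ⟨σ, hdv, hinj⟩ := sgn i j k D0.hij D0.hik D0.hjk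
  have hM : 0 < M := Nat.pos_of_dvd_of_pos D0.mj (coord_pos T0 j)
  have hMr : (0:ℝ) < M := by exact_mod_cast hM
  -- the quotient
  set u : ℝ := Z / (rad B * rad A * rad M) with hu
  have hR0 : (0:ℝ) < (rad B : ℝ) * rad A * rad M := by positivity
  have hu1 : 1 ≤ u := by
    rw [hu, le_div_iff₀ hR0, one_mul]
    exact D0.l1
  set N : ℕ := ⌊u * M⌋₊ with hN
  have hcard : (F.image x).card = F.card := by
    apply Finset.card_image_of_injOn
    intro v hv v' hv' h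
    obtain ⟨-, -, D⟩ := hF v hv
    obtain ⟨-, -, D'⟩ := hF v' hv'
    have h' : x v = x v' := h
    apply hinj
    · rw [D.ci, D'.ci, h']
    · rw [D.ck, D'.ck]
  have hco : ∀ v ∈ F, (coord v i).Coprime M := by
    intro v hv
    obtain ⟨T, -, D⟩ := hF v hv
    exact (coprime T D.hij).coprime_dvd_right D.mj
  have main := hRTN M e N (F.image x) hM D0.ea (by
      intro y hy
      obtain ⟨v, hv, rfl⟩ := Finset.mem_image.mp hy
      obtain ⟨T, -, D⟩ := hF v hv
      constructor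
      · have h1 := hco v hv
        rw [D.ci] at h1
        have h2 : x v ∣ A * x v ^ e := (dvd_pow_self _ (by have := D.ea; omega)).mul_left _
        exact h1.coprime_dvd_left h2
      · rw [hN]
        apply Nat.le_floor
        have h2 := D.l2
        rw [hu, div_mul_eq_mul_div, le_div_iff₀ hR0, mul_comm]
        exact h2) (by
      intro y hy y' hy'
      obtain ⟨v, hv, rfl⟩ := Finset.mem_image.mp hy
      obtain ⟨v', hv', rfl⟩ := Finset.mem_image.mp hy'
      obtain ⟨T, -, D⟩ := hF v hv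
      obtain ⟨T', -, D'⟩ := hF v' hv'
      have hA : Nat.Coprime M A := by
        have h1 := hco v hv
        rw [D.ci] at h1
        exact (h1.coprime_dvd_left (Dvd.intro _ rfl)).symm
      have h1 : (M : ℤ) ∣ (A * x v ^ e : ℕ) - σ * B := by
        have h2 := hdv v
        rw [D.ci, D.ck] at h2
        have h3 : (M : ℤ) ∣ (coord v j : ℤ) := by exact_mod_cast D.mj
        exact h3.trans h2
      have h1' : (M : ℤ) ∣ (A * x v' ^ e : ℕ) - σ * B := by
        have h2 := hdv v'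
        rw [D'.ci, D'.ck] at h2
        have h3 : (M : ℤ) ∣ (coord v' j : ℤ) := by exact_mod_cast D'.mj
        exact h3.trans h2
      have h4 : (M : ℤ) ∣ ((A * x v' ^ e : ℕ) : ℤ) - ((A * x v ^ e : ℕ) : ℤ) := by
        have h5 := dvd_sub h1' h1
        have h6 : ((A * x v' ^ e : ℕ) : ℤ) - σ * B - (((A * x v ^ e : ℕ) : ℤ) - σ * B) =
            ((A * x v' ^ e : ℕ) : ℤ) - ((A * x v ^ e : ℕ) : ℤ) := by ring
        rwa [h6] at h5
      have h7 : A * x v ^ e ≡ A * x v' ^ e [MOD M] := (Nat.modEq_iff_dvd).mpr h4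
      exact Nat.ModEq.cancel_left_of_coprime (by simpa using hA) h7)
  rw [hcard] at main
  have h1 : ((N / M : ℕ) : ℝ) ≤ u := by
    have h2 : ((N / M : ℕ) : ℝ) ≤ (N : ℝ) / M := Nat.cast_div_le
    have h3 : (N : ℝ) ≤ u * M := Nat.floor_le (by positivity)
    calc ((N / M : ℕ) : ℝ) ≤ (N : ℝ) / M := h2
      _ ≤ (u * M) / M := by gcongr
      _ = u := by field_simp
  have h2 : ((2 * e : ℕ) : ℝ) ^ M.primeFactors.card ≤ W := by
    have hr1 : 1 ≤ rad M := by
      have := rM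
      exact_mod_cast this
    have hr2 : ((rad M : ℕ) : ℝ) ≤ X := by
      have h3 : rad M ≤ RR v0 := by
        unfold RR
        apply rad_le (D0.mj.trans (coord_dvd v0 j))
        unfold nn
        have t1 := T0.1
        have t2 := T0.2.1
        positivity
      have h4 : ((rad M : ℕ) : ℝ) ≤ (RR v0 : ℝ) := by exact_mod_cast h3
      exact h4.trans X0
    have h5 := hW (rad M) hr1 hr2
    rw [om_rad] at h5
    have hE0 : (0:ℝ) ≤ E := Nat.cast_nonneg E
    have he0 : (0:ℝ) ≤ e := Nat.cast_nonneg e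
    have heE : (e : ℝ) ≤ E := by exact_mod_cast D0.eb
    calc ((2 * e : ℕ) : ℝ) ^ M.primeFactors.card ≤ (2 * (E:ℝ) + 1) ^ M.primeFactors.card := by
          apply pow_le_pow_left₀ (Nat.cast_nonneg _)
          push_cast
          linarith
      _ ≤ (2 * (E:ℝ) + 1) ^ (M.primeFactors.card + 1) :=
          pow_le_pow_right₀ (by linarith) (Nat.le_succ _)
      _ ≤ W := h5
  have h3 : (F.card : ℝ) ≤ ((2 * e : ℕ) : ℝ) ^ M.primeFactors.card * (((N / M : ℕ) : ℝ) + 1) := by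
    exact_mod_cast main
  calc (F.card : ℝ) ≤ _ := h3
    _ ≤ W * (u + u) := by
        apply mul_le_mul h2 (by linarith) (by positivity) hW0
    _ = 2 * W * Z * (1 / rad B * (1 / rad A) * (1 / rad M)) := by
        rw [hu]
        field_simp
        ring

/-- sum over the classes -/
theorem card_fib {α β : Type*} [DecidableEq β] (F : Finset α) (g : α → β) (T : Finset β)
    (hg : ∀ v ∈ F, g v ∈ T) (w : β → ℝ)
    (h : ∀ d ∈ T, ((F.filter (fun v => g v = d)).card : ℝ) ≤ w d) : (F.card : ℝ) ≤ ∑ d ∈ T, w d := by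
  rw [Finset.card_eq_sum_card_fiberwise hg, Nat.cast_sum]
  exact Finset.sum_le_sum h

/-- growth of the constants -/
theorem growth (κ ε C : ℝ) (hκ : 0 < κ) (hε : 0 < ε) : ∃ D : ℝ, 1 ≤ D ∧
    ∀ X : ℝ, 1 ≤ X → ∀ h : ℝ, h = max 1 (κ * Real.log X) →
      Real.exp (C * Real.sqrt h) ^ 3 ≤ D * X ^ ε := by
  set u : ℝ := ε / κ with hu
  have hu0 : 0 < u := by positivity
  refine ⟨max 1 (Real.exp (9 * C ^ 2 / (4 * u) + u)), le_max_left _ _, ?_⟩
  intro X hX h hh
  have hh1 : 1 ≤ h := by rw [hh]; exact le_max_left _ _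
  have hlX : 0 ≤ Real.log X := Real.log_nonneg hX
  have hhX : h ≤ 1 + κ * Real.log X := by
    rw [hh]
    apply max_le
    · have : 0 ≤ κ * Real.log X := by positivity
      linarith
    · linarith
  have h5 : 3 * (C * Real.sqrt h) ≤ u * h + 9 * C ^ 2 / (4 * u) := by
    have h6 : 0 ≤ (Real.sqrt u * Real.sqrt h - 3 * C / (2 * Real.sqrt u)) ^ 2 := sq_nonneg _
    have h7 : (Real.sqrt u) ^ 2 = u := Real.sq_sqrt hu0.le
    have h8 : (Real.sqrt h) ^ 2 = h := Real.sq_sqrt (by linarith)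
    have h9 : 0 < Real.sqrt u := Real.sqrt_pos.mpr hu0
    have h10 : (Real.sqrt u * Real.sqrt h - 3 * C / (2 * Real.sqrt u)) ^ 2 =
        u * h - 3 * (C * Real.sqrt h) + 9 * C ^ 2 / (4 * u) := by
      have e1 : (Real.sqrt u * Real.sqrt h - 3 * C / (2 * Real.sqrt u)) ^ 2 =
          (Real.sqrt u) ^ 2 * (Real.sqrt h) ^ 2 - 3 * (C * Real.sqrt h) * (Real.sqrt u / Real.sqrt u) +
            9 * C ^ 2 / (4 * (Real.sqrt u) ^ 2) := by
        field_simp
        ring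
      rw [e1, h7, h8, div_self h9.ne', mul_one]
    linarith
  have h11 : Real.exp (C * Real.sqrt h) ^ 3 ≤ Real.exp (u * h + 9 * C ^ 2 / (4 * u)) := by
    rw [← Real.exp_nat_mul]
    apply Real.exp_le_exp.mpr
    push_cast
    exact h5
  have h12 : Real.exp (u * h) ≤ Real.exp u * X ^ ε := by
    rw [Real.rpow_def_of_pos (by linarith), ← Real.exp_add]
    apply Real.exp_le_exp.mpr
    have e1 : u * (κ * Real.log X) = Real.log X * ε := by
      rw [hu]
      field_simp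
    have h13 : u * h ≤ u * (1 + κ * Real.log X) :=
      mul_le_mul_of_nonneg_left hhX (by positivity)
    linarith
  have hXe : 0 ≤ X ^ ε := by positivity
  calc Real.exp (C * Real.sqrt h) ^ 3 ≤ Real.exp (u * h + 9 * C ^ 2 / (4 * u)) := h11
    _ = Real.exp (9 * C ^ 2 / (4 * u)) * Real.exp (u * h) := by rw [← Real.exp_add]; ring_nf
    _ ≤ Real.exp (9 * C ^ 2 / (4 * u)) * (Real.exp u * X ^ ε) := by gcongr
    _ = Real.exp (9 * C ^ 2 / (4 * u) + u) * X ^ ε := by rw [Real.exp_add]; ring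
    _ ≤ _ := mul_le_mul_of_nonneg_right (le_max_right _ _) hXe

end Pool.MED.CNR

namespace Pool.MED

open Finset Pool.Agent.H98.ABCR Pool.SHA CNR

theorem cnr_thm (hRTN : S_RTN) (hSRD : S_SRD) (hOMB : Pool.FEX.S_OMB) : S_CNR := by
  classical
  intro E κ ε hκ hε
  obtain ⟨C, hC, hS⟩ := hSRD
  obtain ⟨D, hD, hgr⟩ := CNR.growth κ (ε / 2) C hκ (by linarith)
  have hE0 : (0:ℝ) ≤ E := Nat.cast_nonneg E
  obtain ⟨C', hC', hom⟩ := hOMB (2 * (E : ℝ) + 1) (ε / 2) (by linarith) (by linarith)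
  refine ⟨27 * (E + 1) * (2 * C') * D + 1, by
    have : (0:ℝ) ≤ 27 * (E + 1) * (2 * C') * D := by positivity
    linarith, ?_⟩
  intro X Z F hX hZ hF
  have hX0 : (0:ℝ) < X := by linarith
  set h : ℝ := max 1 (κ * Real.log X) with hh
  have hh1 : 1 ≤ h := le_max_left _ _
  set N := ⌊Real.exp h⌋₊ with hN
  set W : ℝ := C' * X ^ (ε / 2) with hWdef
  have hW0 : 0 ≤ W := by positivity
  have hW : ∀ R : ℕ, 1 ≤ R → (R : ℝ) ≤ X → (2 * (E : ℝ) + 1) ^ (om R + 1) ≤ W := by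
    intro R hR hRX
    refine (hom R hR).trans ?_
    rw [hWdef]
    apply mul_le_mul_of_nonneg_left _ (by linarith)
    exact Real.rpow_le_rpow (Nat.cast_nonneg _) hRX (by linarith)
  -- choice of the data
  have hdat : ∀ v : ℕ × ℕ, ∃ (i j k : Fin 3) (e B A M x : ℕ), v ∈ F →
      CNR.Dat E Z v i j k e B A M x := by
    intro v
    by_cases hv : v ∈ F
    · obtain ⟨-, -, -, i, j, k, e, x, A, M, h1, h2, h3, h4, h5, h6, h7, h8, h9⟩ := hF v hv
      exact ⟨i, j, k, e, coord v k, A, M, x, fun _ => ⟨h1, h2, h3, h4, h5, rfl, h6, h7, h8, h9⟩⟩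
    · exact ⟨0, 0, 0, 0, 0, 0, 0, 0, fun h' => absurd h' hv⟩
  choose i j k e B A M x hd using hdat
  set g : ℕ × ℕ → ((Fin 3 × Fin 3 × Fin 3) × ℕ) × (ℕ × ℕ × ℕ) := fun v =>
    (((i v, j v, k v), e v), (B v, A v, M v)) with hg
  set T : Finset (((Fin 3 × Fin 3 × Fin 3) × ℕ) × (ℕ × ℕ × ℕ)) :=
    (univ ×ˢ range (E + 1)) ×ˢ (Icc 1 N ×ˢ Icc 1 N ×ˢ Icc 1 N) with hT
  have hlt : ∀ v ∈ F, ∀ s, 0 < coord v s ∧ coord v s ≤ N := by
    intro v hv s
    obtain ⟨T1, -, h3, -⟩ := hF v hv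
    refine ⟨CNR.coord_pos T1 s, (CNR.coord_le v s).trans ?_⟩
    rw [hN]
    apply Nat.le_floor
    have hpos : (0 : ℝ) < ((v.1 + v.2 : ℕ) : ℝ) := by
      exact_mod_cast (by have := T1.1; omega : 0 < v.1 + v.2)
    have h4 : Real.log ((v.1 + v.2 : ℕ) : ℝ) ≤ h := le_trans h3 (le_max_right _ _)
    exact (Real.log_le_iff_le_exp hpos).1 h4
  have hgT : ∀ v ∈ F, g v ∈ T := by
    intro v hv
    have D := hd v hv
    obtain ⟨ci, ci'⟩ := hlt v hv (i v)
    obtain ⟨cj, cj'⟩ := hlt v hv (j v)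
    obtain ⟨ck, ck'⟩ := hlt v hv (k v)
    have q1 : ∀ {a c : ℕ}, a ∣ c → 0 < c → c ≤ N → 1 ≤ a ∧ a ≤ N := by
      intro a c hac hc hcN
      exact ⟨Nat.pos_of_dvd_of_pos hac hc, (Nat.le_of_dvd hc hac).trans hcN⟩
    have A1 : A v ∣ coord v (i v) := ⟨x v ^ e v, by rw [D.ci]⟩
    have B1 : B v ∣ coord v (k v) := by rw [D.ck]
    simp only [hT, hg, Finset.mem_product, Finset.mem_univ, Finset.mem_range, Finset.mem_Icc, true_and]
    exact ⟨Nat.lt_succ_of_le D.eb, q1 B1 ck ck', q1 A1 ci ci', q1 D.mj cj cj'⟩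
  have key := CNR.card_fib F g T hgT
    (fun d => 2 * W * Z * (1 / rad d.2.1 * (1 / rad d.2.2.1) * (1 / rad d.2.2.2))) (by
      intro d _
      obtain ⟨⟨⟨i0, j0, k0⟩, e0⟩, ⟨B0, A0, M0⟩⟩ := d
      apply CNR.fib hRTN i0 j0 k0 e0 B0 A0 M0 _ x hZ hW0 hW
      intro v hv
      obtain ⟨hvF, hvg⟩ := Finset.mem_filter.mp hv
      simp only [hg, Prod.mk.injEq] at hvg
      obtain ⟨⟨⟨u1, u2, u3⟩, u4⟩, ⟨u5, u6, u7⟩⟩ := hvg
      refine ⟨(hF v hvF).1, (hF v hvF).2.1, ?_⟩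
      have D := hd v hvF
      rw [u1, u2, u3, u4, u5, u6, u7] at D
      exact D)
  have hsum : ∑ d ∈ T, 2 * W * Z * (1 / (rad d.2.1 : ℝ) * (1 / rad d.2.2.1) * (1 / rad d.2.2.2)) =
      (27 * (E + 1)) * (2 * W * Z * (∑ n ∈ Icc 1 N, (1 : ℝ) / rad n) ^ 3) := by
    rw [hT, Finset.sum_product]
    simp only [Finset.sum_const, nsmul_eq_mul, Finset.card_product, Finset.card_univ, Finset.card_range,
      Fintype.card_prod, Fintype.card_fin]
    rw [← Finset.mul_sum]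
    have e1 : ∑ x ∈ Icc 1 N ×ˢ Icc 1 N ×ˢ Icc 1 N,
        (1 / (rad x.1 : ℝ) * (1 / rad x.2.1) * (1 / rad x.2.2)) =
        (∑ n ∈ Icc 1 N, (1 : ℝ) / rad n) ^ 3 := by
      rw [Finset.sum_product]
      simp only [Finset.sum_product]
      rw [pow_succ, sq, Finset.sum_mul_sum, Finset.sum_mul]
      apply Finset.sum_congr rfl
      intro x _
      rw [Finset.sum_mul]
      apply Finset.sum_congr rfl
      intro y _
      rw [Finset.mul_sum]
    rw [e1]
    push_cast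
    ring
  have hS3 : (∑ n ∈ Icc 1 N, (1 : ℝ) / rad n) ^ 3 ≤ Real.exp (C * Real.sqrt h) ^ 3 :=
    pow_le_pow_left₀ (Finset.sum_nonneg (fun n _ => by positivity)) (hS h hh1) 3
  have hg3 := hgr X hX h hh
  have hXX : X ^ (ε / 2) * X ^ (ε / 2) = X ^ ε := by
    rw [← Real.rpow_add hX0]
    congr 1
    ring
  calc (F.card : ℝ) ≤ _ := key
    _ = _ := hsum
    _ ≤ (27 * (E + 1)) * (2 * W * Z * Real.exp (C * Real.sqrt h) ^ 3) := by
        gcongr
    _ ≤ (27 * (E + 1)) * (2 * W * Z * (D * X ^ (ε / 2))) := by gcongr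
    _ = (27 * (E + 1) * (2 * C') * D) * (X ^ (ε / 2) * X ^ (ε / 2)) * Z := by
        rw [hWdef]
        ring
    _ = (27 * (E + 1) * (2 * C') * D) * X ^ ε * Z := by rw [hXX]
    _ ≤ (27 * (E + 1) * (2 * C') * D + 1) * X ^ ε * Z := by
        have : 0 ≤ X ^ ε * Z := by positivity
        nlinarith

end Pool.MED
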